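import Pool.Agent.Lib_helper35.RS4.Main4

/-!
# Rubin's conjecture for abelian `p`-extensions of Kummer type
-/

namespace Pool.Agent.Results.MP_dd9835_nt.RubinAllS

open Pool.Agent.RSK Pool.Agent.RS3 Pool.Agent.RS4 NumberField IsDedekindDomain

/-- Let `H/F` be an abelian extension of number fields of `p`-power degree (`p = 2` included)
which is a Kummer extension defined over a number field `F₀` with `F = F₀(ζ)`, or such that, more
generally, every cyclic extension `K/F` inside `H` has an action of `(ℤ/p^m)ˣ`, `[K : F] ∣ p ^ m`,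
by automorphisms `θ a` of the field `K` with `θ a ∘ σ = σ ^ a ∘ θ a` for `σ ∈ Gal(K/F)`. For all
data `S, T, r, w_i` as in Rubin's conjecture there is an element `u = e_r u` with
`(w_1^* ∧ … ∧ w_r^*)(λ(u)) = Θ` such that `p ^ e u` lies in Rubin's lattice, where one can take
`p ^ e = #G` for every `S`, and `e = 0` (Rubin's conjecture) if `S` is large. -/
theorem result {F H : Type} [Field F] [NumberField F] [Field H] [NumberField H] [Algebra F H]
    [IsGalois F H] {G : Type} [CommGroup G] [Fintype G] (ι : G ≃* (H ≃ₐ[F] H))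
    (S T : Finset (HeightOneSpectrum (𝓞 F))) {r : ℕ} (w : Fin r → Pl H)
    (fr : HeightOneSpectrum (𝓞 F) → G) (hD : Data ι S T r w fr)
    {p : ℕ} (hp : p.Prime) (hG : IsPGroup p G)
    (hext : KumP p F H ∨ ∀ N : Subgroup G, IsCyclic (G ⧸ N) → Hol3 p N.index F (Kf ι N))
    (e : ℕ) (hS : Nat.card G ∣ p ^ e ∨ SBig p r F G S ∨ SExp p e ι S w) :
    RubinUp (p ^ e) ι S T w fr :=
  rubin_main4 hp hG hD hext hS

end Pool.Agent.Results.MP_dd9835_nt.RubinAllS
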