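import Pool.Agent.Lib_helper35.RS3.Main
import Pool.Agent.Lib_helper17.RS.Stmt

/-!
# Rubin's conjecture for abelian `p`-extensions of Kummer type
-/

namespace Pool.Agent.Results.MP_dd9835_nt.RubinPGroup

open Pool.Agent.RSK Pool.Agent.RS3 NumberField IsDedekindDomain

/-- Rubin's conjecture holds for `(H/F, S, T, r)` if `H/F` is an abelian extension of number fields
of `p`-power degree (`p = 2` included) which is a Kummer extension defined over a number field `F₀`
with `F = F₀(ζ)`, or such that, more generally, every cyclic extension `K/F` inside `H` has an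
action of `(ℤ/p^m)ˣ`, `[K : F] ∣ p ^ m`, by automorphisms `θ a` of the field `K` with
`θ a ∘ σ = σ ^ a ∘ θ a` for `σ ∈ Gal(K/F)`; provided that `S` is large. -/
theorem result {F H : Type} [Field F] [NumberField F] [Field H] [NumberField H] [Algebra F H]
    [IsGalois F H] {G : Type} [CommGroup G] [Fintype G] (ι : G ≃* (H ≃ₐ[F] H))
    (S T : Finset (HeightOneSpectrum (𝓞 F))) {r : ℕ} (w : Fin r → Pl H)
    (fr : HeightOneSpectrum (𝓞 F) → G) (hD : Data ι S T r w fr)
    {p : ℕ} (hp : p.Prime) (hG : IsPGroup p G)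
    (hext : KumP p F H ∨ ∀ N : Subgroup G, IsCyclic (G ⧸ N) → Hol3 p N.index F (Kf ι N))
    (hS : SBig p r F G S ∨ SSharp p ι S w) :
    Rubin ι S T w fr :=
  rubin_of ι S T w fr (rubin_main hp hG hD hext hS)

end Pool.Agent.Results.MP_dd9835_nt.RubinPGroup
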